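import Pool.Agent.helper52.HY.Spec

set_option autoImplicit false

open Complex Metric Set Filter Topology MeasureTheory
open Pool.Agent.helper98.ILF Pool.Agent.helper16.Multibrot

noncomputable section

namespace HY

/-- the inverse of an injective holomorphic function on the disc. -/
theorem DST_inv (hK : V3.KO0_stmt) {V : Set ℂ} {a : ℂ} {φ : ℂ → ℂ} (h : RM V a φ) :
    ∃ χ : ℂ → ℂ, (∀ z ∈ V, χ z ∈ UD ∧ φ (χ z) = z) ∧ (∀ x ∈ UD, χ (φ x) = x) ∧ DifferentiableOn ℂ χ V := by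
  have hop : IsOpen UD := isOpen_ball
  have h1 : ∀ z ∈ V, Function.invFunOn φ UD z ∈ UD ∧ φ (Function.invFunOn φ UD z) = z := by
    intro z hz
    rw [← h.img] at hz
    obtain ⟨x, hx, hxz⟩ := hz
    exact ⟨Function.invFunOn_mem ⟨x, hx, hxz⟩, Function.invFunOn_eq ⟨x, hx, hxz⟩⟩
  have h2 : ∀ x ∈ UD, Function.invFunOn φ UD (φ x) = x := fun x hx => h.inj.leftInvOn_invFunOn hx
  refine ⟨Function.invFunOn φ UD, h1, h2, ?_⟩
  intro z hz
  obtain ⟨hx, hxz⟩ := h1 z hz
  set x := Function.invFunOn φ UD z with hxdef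
  have hd := hK φ UD hop h.dif h.inj x hx
  have han : AnalyticAt ℂ φ x := h.dif.analyticAt (hop.mem_nhds hx)
  have hst : HasStrictDerivAt φ (deriv φ x) x := han.hasStrictDerivAt
  have hloc := hst.to_localInverse hd
  rw [hxz] at hloc
  have hr : ∀ᶠ w in 𝓝 z, φ (hst.localInverse φ (deriv φ x) x hd w) = w := by
    have := (hst.hasStrictFDerivAt_equiv hd).eventually_right_inverse
    rw [hxz] at this
    exact this
  have hl : hst.localInverse φ (deriv φ x) x hd z = x := by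
    have := (hst.hasStrictFDerivAt_equiv hd).localInverse_apply_image
    rw [hxz] at this
    exact this
  have hcont : ContinuousAt (hst.localInverse φ (deriv φ x) x hd) z := hloc.hasDerivAt.continuousAt
  have hin : ∀ᶠ w in 𝓝 z, hst.localInverse φ (deriv φ x) x hd w ∈ UD := by
    apply hcont.eventually_mem
    rw [hl]
    exact hop.mem_nhds hx
  have heq : Function.invFunOn φ UD =ᶠ[𝓝 z] hst.localInverse φ (deriv φ x) x hd := by
    filter_upwards [hr, hin] with w hw1 hw2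
    have := h2 _ hw2
    rw [hw1] at this
    exact this
  exact (heq.symm.differentiableAt_iff.1 hloc.hasDerivAt.differentiableAt).differentiableWithinAt

theorem DST (hMOB : MOB_stmt) (hHDI : HDI_stmt) (hKAP : KAP_stmt) (hK : V3.KO0_stmt) : DST_stmt := by
  intro n c V φ ψ b hS H H' hHd hH'd hHm hH'm hrel x hx hhalf
  have hop : IsOpen UD := isOpen_ball
  have h0 : (0 : ℂ) ∈ UD := mem_ball_self one_pos
  have hn0 : n ≠ 0 := by have := hS.hn; omega
  obtain ⟨χ, hχ1, hχ2, hχ3⟩ := DST_inv hK hS.rm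
  obtain ⟨ω, hω1, hω2, hω3⟩ := DST_inv hK hS.rmu
  have hφV : ∀ u ∈ UD, φ u ∈ V := by
    intro u hu
    rw [← hS.rm.img]
    exact mem_image_of_mem _ hu
  have hψU : ∀ u ∈ UD, ψ u ∈ {z | fz n c z ∈ V} := by
    intro u hu
    rw [← hS.rmu.img]
    exact mem_image_of_mem _ hu
  have hφU : ∀ u ∈ UD, φ (H u) ∈ {z | fz n c z ∈ V} := by
    intro u hu
    show fz n c (φ (H u)) ∈ V
    rw [← hrel u hu]
    exact hφV _ (hH'm hu)
  -- the function X
  have hXm : ∀ u ∈ UD, ω (φ (H u)) ∈ UD := fun u hu => (hω1 _ (hφU u hu)).1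
  have hXψ : ∀ u ∈ UD, ψ (ω (φ (H u))) = φ (H u) := fun u hu => (hω1 _ (hφU u hu)).2
  have hXd : DifferentiableOn ℂ (fun u => ω (φ (H u))) UD :=
    hω3.comp (hS.rm.dif.comp hHd hHm) hφU
  -- the function J
  have hJm : ∀ u ∈ UD, χ (ψ u) ∈ UD := fun u hu => (hχ1 _ (hS.sub (hψU u hu))).1
  have hJd : DifferentiableOn ℂ (fun u => χ (ψ u)) UD :=
    hχ3.comp hS.rmu.dif (fun u hu => hS.sub (hψU u hu))
  have hJ0 : χ (ψ 0) = 0 := by
    have h1 : ψ 0 = φ 0 := by rw [hS.rmu.val, hS.rm.val]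
    rw [h1]
    exact hχ2 0 h0
  have hHJ : ∀ u ∈ UD, χ (ψ (ω (φ (H u)))) = H u := by
    intro u hu
    rw [hXψ u hu]
    exact hχ2 _ (hHm hu)
  obtain ⟨hmob, -⟩ := hMOB b hS.hb
  have hpow : ∀ v ∈ UD, v ^ n ∈ UD := by
    intro v hv
    have hv1 : ‖v‖ < 1 := by simpa [UD] using hv
    simp only [UD, mem_ball, dist_zero_right, norm_pow]
    exact pow_lt_one₀ (norm_nonneg _) hv1 hn0
  have hH'S : ∀ u ∈ UD, H' u = S b ((ω (φ (H u))) ^ n) := by
    intro u hu
    apply hS.rm.inj (hH'm hu) (hmob _ (hpow _ (hXm u hu))).2.1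
    rw [← hS.rel _ (hXm u hu), hXψ u hu, hrel u hu]
  -- values at x
  have hXx := hXm x hx
  set t : ℝ := ‖ω (φ (H x))‖ with htdef
  have ht1 : t < 1 := by simpa [UD] using hXx
  have hle : ‖H x‖ ≤ t := by
    have h1 := Complex.norm_le_norm_of_mapsTo_ball (f := fun u => χ (ψ u)) (z := ω (φ (H x))) hJd
      (fun u hu => ball_subset_closedBall (hJm u hu)) hJ0 ht1
    have h2 : χ (ψ (ω (φ (H x)))) = H x := hHJ x hx
    rw [← h2]
    exact h1
  have ht2 : 1 / 2 ≤ t := hhalf.trans hle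
  have hXdx : DifferentiableAt ℂ (fun u => ω (φ (H u))) x := (hXd x hx).differentiableAt (hop.mem_nhds hx)
  set a : ℝ := ‖deriv (fun u => ω (φ (H u))) x‖ with hadef
  have ha0 : 0 ≤ a := norm_nonneg _
  have e1 : hd H x ≤ a / (1 - t ^ 2) := by
    have h1 := hHDI.2.1 (fun u => χ (ψ u)) (fun u => ω (φ (H u))) x hJd
      (fun u hu => hJm u hu) hXdx hXx
    have h2 : hd (fun z => (fun u => χ (ψ u)) ((fun u => ω (φ (H u))) z)) x = hd H x := by
      unfold hd
      have h3 : (fun z => (fun u => χ (ψ u)) ((fun u => ω (φ (H u))) z)) =ᶠ[𝓝 x] H := by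
        filter_upwards [hop.mem_nhds hx] with u hu
        exact hHJ u hu
      rw [h3.deriv_eq, h3.self_of_nhds]
    rw [h2] at h1
    exact h1
  have e2 : hd H' x = n * t ^ (n - 1) * a / (1 - t ^ (2 * n)) := by
    have hYd : DifferentiableAt ℂ (fun u => (ω (φ (H u))) ^ n) x := hXdx.pow n
    have h1 := (hHDI.1 b (fun u => (ω (φ (H u))) ^ n) x hS.hb hYd (hpow _ hXx)).2
    have h2 : hd (fun z => S b ((ω (φ (H z))) ^ n)) x = hd H' x := by
      unfold hd
      have h3 : (fun z => S b ((ω (φ (H z))) ^ n)) =ᶠ[𝓝 x] H' := by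
        filter_upwards [hop.mem_nhds hx] with u hu
        exact (hH'S u hu).symm
      rw [h3.deriv_eq, h3.self_of_nhds]
    have h4 : hd (fun u => (ω (φ (H u))) ^ n) x = n * t ^ (n - 1) * a / (1 - t ^ (2 * n)) := by
      unfold hd
      have h5 : deriv (fun u => (ω (φ (H u))) ^ n) x =
          n * (ω (φ (H x))) ^ (n - 1) * deriv (fun u => ω (φ (H u))) x := by
        have h6 : HasDerivAt (fun u => (ω (φ (H u))) ^ n)
            (n * (ω (φ (H x))) ^ (n - 1) * deriv (fun u => ω (φ (H u))) x) x := hXdx.hasDerivAt.pow n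
        exact h6.deriv
      rw [h5, norm_mul, norm_mul, norm_pow, norm_pow, Complex.norm_natCast, ← pow_mul, ← htdef,
        ← hadef, mul_comm n 2]
    rw [← h2]
    exact h1.trans h4
  have hkap := hKAP n t (by have := hS.hn; omega) ht2 ht1
  have hp1 : 0 < 1 - t ^ 2 := by nlinarith
  have hp2 : 0 < 1 - t ^ (2 * n) := by
    have : t ^ (2 * n) < 1 := pow_lt_one₀ (by linarith) ht1 (by omega)
    linarith
  have hexp : Real.exp (2 * n ^ 2 * (1 - t) ^ 2) ≤ Real.exp (2 * n ^ 2 * (1 - ‖H x‖) ^ 2) := by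
    apply Real.exp_le_exp.2
    apply mul_le_mul_of_nonneg_left _ (by positivity)
    apply pow_le_pow_left₀ (by linarith)
    linarith
  have hnn : 0 ≤ (n : ℝ) * t ^ (n - 1) * a / (1 - t ^ (2 * n)) := by
    have : 0 ≤ t := by linarith
    positivity
  rw [e2]
  refine e1.trans (le_trans ?_ (mul_le_mul_of_nonneg_right hexp hnn))
  rw [← mul_div_assoc, div_le_div_iff₀ hp1 hp2]
  have := mul_le_mul_of_nonneg_left hkap ha0
  nlinarith

end HY
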